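import Pool.Agent.Helper3_PPX.Ass
import Pool.Agent.Helper3_PPZ.Stmts

/-!
# Squad PPZ, module ZET: the degree in `z` of the Chow form is less than `N₂`
-/

set_option autoImplicit false

universe u

namespace Pool.Agent.PPZ.H52

open MvPolynomial PGH PPX

theorem degreeOf_le_of_mem {k : Type u} [Field k] {d₁ d₂ M : ℕ} {Q : P4 k}
    (hQ : Q ∈ Qd k d₁ d₂ M) : degreeOf 1 Q ≤ d₂ ∧ degreeOf 2 Q ≤ M ∧ degreeOf 3 Q ≤ M := by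
  have h : ∀ s ∈ Q.support, ∀ v, s v ≤ (![d₁, d₂, M, M] : Fin 4 → ℕ) v := fun s hs => hQ hs
  refine ⟨?_, ?_, ?_⟩
  · rw [degreeOf_le_iff]
    exact fun s hs => h s hs 1
  · rw [degreeOf_le_iff]
    exact fun s hs => h s hs 2
  · rw [degreeOf_le_iff]
    exact fun s hs => h s hs 3

theorem zet (hupr : UprStmt.{u}) : ZetStmt.{u} := by
  intro k _ _ N₁ N₂ a b Θ r M₀ v hv B hB hN₁ hN₂ M' hM' hM₀ R Q C hR hQ hRi hRQ hRd hQd hCi hCv hCd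
  obtain ⟨hR1, hR2, hR3⟩ := degreeOf_le_of_mem hRd
  obtain ⟨hQ1, hQ2, hQ3⟩ := degreeOf_le_of_mem hQd
  have h1 := H3.stc0 v hv.prime hv.plane (2 * N₂) M' (8 * M' + 8) (4 * N₁) R Q C hR hQ hRi hRQ
    hR1 hQ1 hR2 hR3 hQ2 hQ3 hCi hCv hCd (by omega)
  have h2 := hupr a b Θ r M₀ v hv B hB (4 * N₁) (2 * (2 * N₂)) (8 * M' + 8) (8 * M' + 8)
    (by nlinarith) hM₀ (Td k (4 * N₁) (2 * (2 * N₂)) (8 * M' + 8)) (H9.Td_le_Qd _ _ _)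
    (fun Q hQ i j => H9.lin_deg _ _ _ _ hQ)
  have h3 : 8 * M' + 8 - 4 * M' + 1 = 4 * M' + 9 := by omega
  rw [h3] at h1
  by_contra hcon
  push Not at hcon
  have h4 : (4 * N₁ + 1) * (4 * M' + 9) * N₂ ≤ (4 * N₁ + 1) * (4 * M' + 9) * degreeOf 1 C :=
    Nat.mul_le_mul_left _ hcon
  have h5 : (8 * M' + 8 + 1 + B * r ^ 4) * (N₁ * N₂) ≤ (9 * M' + 9) * (N₁ * N₂) :=
    Nat.mul_le_mul_right _ (by omega)
  have h6 := h4.trans (h1.trans (h2.trans h5))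
  have h7 : 0 < N₁ * N₂ := Nat.mul_pos hN₁ hN₂
  nlinarith [Nat.zero_le (M' * (N₁ * N₂)), Nat.zero_le (M' * N₂)]

end Pool.Agent.PPZ.H52
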